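import Pool.Agent.H621.GT.Pub

/-!
# Divisibility of products of conjugates
-/

open IntermediateField Polynomial

namespace Pool.Agent.H621.GT

variable {K : Type} [Field K] [CharZero K]

/-- Integrality over a field is preserved by conjugation. -/
theorem transfer {E : Type} [Field E] [Algebra E K] {α α' : K} (hα : IsIntegral E α)
    (h : aeval α' (minpoly E α) = 0) (x : E) (hx : IsIntegral ℤ (α * algebraMap E K x)) :
    IsIntegral ℤ (α' * algebraMap E K x) := by
  have hroot : α' ∈ (minpoly E α).aroots K := by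
    rw [mem_aroots]
    exact ⟨minpoly.ne_zero hα, h⟩
  let φ : E⟮α⟯ →ₐ[E] K := (algHomAdjoinIntegralEquiv E hα).symm ⟨α', hroot⟩
  have hφ : φ (AdjoinSimple.gen E α) = α' := algHomAdjoinIntegralEquiv_symm_apply_gen E hα _
  set y : E⟮α⟯ := AdjoinSimple.gen E α * algebraMap E E⟮α⟯ x with hy
  have h1 : (y : K) = α * algebraMap E K x := by
    rw [hy]
    simp
  have h2 : IsIntegral ℤ y := by
    rw [← h1] at hx
    exact (isIntegral_algHom_iff (E⟮α⟯.val.restrictScalars ℤ) E⟮α⟯.val.injective).1 hx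
  have h3 : φ y = α' * algebraMap E K x := by
    rw [hy, map_mul, hφ, AlgHom.commutes]
  rw [← h3]
  exact h2.map (φ.restrictScalars ℤ)

theorem IsConjugate.integral {α α' : K} (hα : IsIntegral ℤ α) (h : IsConjugate α α') (q ν : ℕ)
    (hx : IsIntegral ℤ (α / (q : K) ^ ν)) : IsIntegral ℤ (α' / (q : K) ^ ν) := by
  have hα' : IsIntegral ℚ α := hα.tower_top
  have h1 := transfer (E := ℚ) hα' h (((q : ℚ) ^ ν)⁻¹) (by
    rw [map_inv₀, map_pow, map_natCast, ← div_eq_mul_inv]
    exact hx)
  rwa [map_inv₀, map_pow, map_natCast, ← div_eq_mul_inv] at h1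

/-- The minimal polynomial over a disjoint field. -/
theorem AreDisjoint.aeval {α α' β : K} (hα : IsIntegral ℤ α) (h : AreDisjoint α β)
    (hc : IsConjugate α α') : Polynomial.aeval α' (minpoly ℚ⟮β⟯ α) = 0 := by
  have hα' : IsIntegral ℚ α := hα.tower_top
  have h1 : (minpoly ℚ α).map (algebraMap ℚ ℚ⟮β⟯) = minpoly ℚ⟮β⟯ α := by
    refine minpoly.eq_of_irreducible_of_monic h ?_ ((minpoly.monic hα').map _)
    rw [Polynomial.aeval_map_algebraMap, minpoly.aeval]
  rw [← h1, Polynomial.aeval_map_algebraMap]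
  exact hc

/-- **The divisibility of a product.** -/
theorem split {q : ℕ} (hq : 1 < q) {α β : K} (hα : IsIntegral ℤ α) (hβ : IsIntegral ℤ β)
    (hs : HasIntegralSlope q α) (hd : AreDisjoint α β) {ν : ℕ}
    (h : IsIntegral ℤ (α * β / (q : K) ^ ν)) :
    ∃ a b, a + b = ν ∧ IsIntegral ℤ (α / (q : K) ^ a) ∧ IsIntegral ℤ (β / (q : K) ^ b) := by
  have hq0 : (q : K) ≠ 0 := by
    have : q ≠ 0 := by omega
    exact_mod_cast this
  obtain ⟨a, ha, n, c, γ, hcγ, hsum⟩ := hs
  by_cases hν : ν ≤ a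
  · refine ⟨ν, 0, by omega, ?_, by simpa using hβ⟩
    have h1 : α / (q : K) ^ ν = (q : K) ^ (a - ν) * (α / (q : K) ^ a) := by
      have h2 : (q : K) ^ a = (q : K) ^ ν * (q : K) ^ (a - ν) := by
        rw [← pow_add]
        congr 1
        omega
      rw [h2]
      field_simp
    rw [h1]
    have h3 : IsIntegral ℤ (q : K) := by
      have := isIntegral_algebraMap (R := ℤ) (A := K) (x := (q : ℤ))
      simpa using this
    exact (h3.pow _).mul ha
  · push Not at hν
    refine ⟨a, ν - a, by omega, ha, ?_⟩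
    have h1 : β / (q : K) ^ (ν - a) = ∑ r, c r * (γ r * (β / (q : K) ^ ν)) := by
      have h2 : (q : K) ^ ν = (q : K) ^ a * (q : K) ^ (ν - a) := by
        rw [← pow_add]
        congr 1
        omega
      have h3 : ∑ r, c r * (γ r * (β / (q : K) ^ ν)) = (∑ r, c r * γ r) * (β / (q : K) ^ ν) := by
        rw [Finset.sum_mul]
        exact Finset.sum_congr rfl fun r _ => by ring
      rw [h3, ← hsum, h2]
      field_simp
    rw [h1]
    refine IsIntegral.sum _ fun r _ => (hcγ r).1.mul ?_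
    have hα' : IsIntegral ℚ⟮β⟯ α := by
      have : IsIntegral ℚ α := hα.tower_top
      exact this.tower_top
    have h4 := transfer (E := ℚ⟮β⟯) hα' (hd.aeval hα (hcγ r).2)
      (AdjoinSimple.gen ℚ β / ((q : ℚ⟮β⟯) ^ ν)) (by
        rw [map_div₀, map_pow, map_natCast, AdjoinSimple.algebraMap_gen, ← mul_div_assoc]
        exact h)
    rwa [map_div₀, map_pow, map_natCast, AdjoinSimple.algebraMap_gen] at h4

end Pool.Agent.H621.GT
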