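import Pool.Agent.H621.GT.Arith
import Pool.Agent.H914R2.WeilBasic

/-!
# The coniveau of products
-/

open CategoryTheory AlgebraicGeometry

universe u

namespace Pool.Agent.H621.GT

open Pool.Agent.H914 Pool.Agent.H914.VarClass Pool.Agent.H914.VarClass.Obj
  Pool.Agent.H914.WeilCohomology

variable {k : Type u} [Field k] {𝒱 : VarClass k} {ops : CycleOps 𝒱}
  {W : WeilCohomology.{u, 0} ops} {X Z Y Y' : 𝒱.Obj}

/-- The product of the pull-backs. -/
noncomputable def ex (W : WeilCohomology.{u, 0} ops) (X Z : 𝒱.Obj) :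
    W.H X →ₗ[W.K] W.H Z →ₗ[W.K] W.H (X.prod Z) :=
  (LinearMap.mul W.K (W.H (X.prod Z))).compl₁₂ (W.map (fst X Z)).toLinearMap
    (W.map (snd X Z)).toLinearMap

theorem ex_apply (a : W.H X) (b : W.H Z) :
    ex W X Z a b = W.map (fst X Z) a * W.map (snd X Z) b := rfl

/-- The product of two morphisms. -/
noncomputable def pm (f : Y ⟶ X) (g : Y' ⟶ Z) : Y.prod Y' ⟶ X.prod Z :=
  lift (fst Y Y' ≫ f) (snd Y Y' ≫ g)

theorem push_ex {f : Y ⟶ X} {g : Y' ⟶ Z} {ν : ℕ} (hg : Y'.dim + ν = Z.dim) (a : W.H Y)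
    (b : W.H Y') : ex W X Z (W.push f a) (W.push g b) = W.push (pm f g) (ex W Y Y' a b) := by
  refine gr_induction (W.isInternal Y') (p := fun b =>
    ex W X Z (W.push f a) (W.push g b) = W.push (pm f g) (ex W Y Y' a b)) ?_ ?_ b
  swap
  · intro b c hb hc
    simp only [map_add, hb, hc]
  intro j b hb
  apply W.tr_ext
  intro c
  refine W.kunneth_induction (p := fun c => W.tr (X.prod Z)
    (ex W X Z (W.push f a) (W.push g b) * c) =
      W.tr (X.prod Z) (W.push (pm f g) (ex W Y Y' a b) * c)) ?_ ?_ c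
  · intro x y hx hy
    rw [mul_add, mul_add, map_add, map_add, hx, hy]
  intro l m x hx z _
  have hgb : W.push g b ∈ W.gr Z (j + 2 * ν) := by
    have h1 := W.push_mem g hb
    rwa [show (j : ℤ) + 2 * ((Z.dim : ℤ) - Y'.dim) = ((j + 2 * ν : ℕ) : ℤ) by
      push_cast; omega, grZ_natCast] at h1
  have e1 : W.map (pm f g) (W.map (fst X Z) x) = W.map (fst Y Y') (W.map f x) := by
    rw [← W.map_comp, ← W.map_comp, pm, lift_fst]
  have e2 : W.map (pm f g) (W.map (snd X Z) z) = W.map (snd Y Y') (W.map g z) := by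
    rw [← W.map_comp, ← W.map_comp, pm, lift_snd]
  rw [W.tr_push, map_mul (W.map (pm f g)), e1, e2, ex_apply, ex_apply]
  have h1 : W.map (snd X Z) (W.push g b) * W.map (fst X Z) x =
      (-1 : W.K) ^ (j * l) • (W.map (fst X Z) x * W.map (snd X Z) (W.push g b)) := by
    rw [W.comm (W.map_mem _ hgb) (W.map_mem _ hx),
      show (j + 2 * ν) * l = j * l + 2 * (ν * l) by ring, pow_add, pow_mul (-1 : W.K) 2]
    simp
  have h2 : W.map (snd Y Y') b * W.map (fst Y Y') (W.map f x) =
      (-1 : W.K) ^ (j * l) • (W.map (fst Y Y') (W.map f x) * W.map (snd Y Y') b) :=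
    W.comm (W.map_mem _ hb) (W.map_mem _ (W.map_mem _ hx))
  have h3 : W.map (fst X Z) (W.push f a) * W.map (snd X Z) (W.push g b) *
      (W.map (fst X Z) x * W.map (snd X Z) z) = (-1 : W.K) ^ (j * l) •
        (W.map (fst X Z) (W.push f a * x) * W.map (snd X Z) (W.push g b * z)) := by
    rw [mul_assoc, ← mul_assoc (W.map (snd X Z) (W.push g b)), h1, smul_mul_assoc,
      mul_smul_comm, map_mul, map_mul]
    simp only [mul_assoc]
  have h4 : W.map (fst Y Y') a * W.map (snd Y Y') b *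
      (W.map (fst Y Y') (W.map f x) * W.map (snd Y Y') (W.map g z)) = (-1 : W.K) ^ (j * l) •
        (W.map (fst Y Y') (a * W.map f x) * W.map (snd Y Y') (b * W.map g z)) := by
    rw [mul_assoc, ← mul_assoc (W.map (snd Y Y') b), h2, smul_mul_assoc, mul_smul_comm, map_mul,
      map_mul]
    simp only [mul_assoc]
  rw [h3, h4, map_smul, map_smul, W.tr_prod, W.tr_prod, W.tr_push, W.tr_push]

/-- The coniveau of products. -/
theorem ex_coniveau {a b : ℕ} {x : W.H X} {z : W.H Z} (hx : x ∈ coniveau W X a)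
    (hz : z ∈ coniveau W Z b) : ex W X Z x z ∈ coniveau W (X.prod Z) (a + b) := by
  have h1 : coniveau W X a ≤ (coniveau W (X.prod Z) (a + b)).comap ((ex W X Z).flip z) := by
    refine Submodule.span_le.2 ?_
    rintro _ ⟨Y, f, x, hf, rfl⟩
    change ex W X Z (W.push f x) z ∈ coniveau W (X.prod Z) (a + b)
    have h2 : coniveau W Z b ≤
        (coniveau W (X.prod Z) (a + b)).comap (ex W X Z (W.push f x)) := by
      refine Submodule.span_le.2 ?_
      rintro _ ⟨Y', g, z, hg, rfl⟩
      change ex W X Z (W.push f x) (W.push g z) ∈ coniveau W (X.prod Z) (a + b)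
      have h3 : (Y.prod Y').dim + (a + b) = (X.prod Z).dim := by
        rw [dim_prod, dim_prod]
        omega
      rw [push_ex hg]
      exact Submodule.subset_span ⟨Y.prod Y', pm f g, _, h3, rfl⟩
    exact h2 hz
  exact h1 hx

end Pool.Agent.H621.GT
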