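import Mathlib

/-!
# Generalized eigenvectors of tensor products
-/

namespace Pool.Agent.H621.GT

open Module

variable {K : Type} [Field K] {E E' M : Type} [AddCommGroup E] [Module K E] [AddCommGroup E']
  [Module K E'] [AddCommGroup M] [Module K M]

theorem mem_gen {f : End K E} {α : K} {x : E} :
    x ∈ f.maxGenEigenspace α ↔ ∃ n : ℕ, ((f - algebraMap K (End K E) α) ^ n) x = 0 := by
  rw [Module.End.mem_maxGenEigenspace]
  rfl

theorem gen_bilin_aux {f : End K E} {g : End K E'} {h : End K M} (B : E →ₗ[K] E' →ₗ[K] M)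
    (hB : ∀ x y, B (f x) (g y) = h (B x y)) (α β : K) : ∀ (N : ℕ) (x : E) (y : E') (m n : ℕ),
    m + n ≤ N → ((f - algebraMap K (End K E) α) ^ m) x = 0 →
    ((g - algebraMap K (End K E') β) ^ n) y = 0 →
    ((h - algebraMap K (End K M) (α * β)) ^ N) (B x y) = 0 := by
  intro N
  induction N with
  | zero =>
    intro x y m n hmn hx _
    have h1 : m = 0 := by omega
    rw [h1, pow_zero, Module.End.one_apply] at hx
    rw [hx, map_zero, LinearMap.zero_apply, map_zero]
  | succ N ih =>
    intro x y m n hmn hx hy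
    rcases m with _ | m
    · rw [pow_zero, Module.End.one_apply] at hx
      rw [hx, map_zero, LinearMap.zero_apply, map_zero]
    rcases n with _ | n
    · rw [pow_zero, Module.End.one_apply] at hy
      rw [hy, map_zero, map_zero]
    have e1 : (h - algebraMap K (End K M) (α * β)) (B x y) =
        B ((f - algebraMap K (End K E) α) x) (g y) +
          α • B x ((g - algebraMap K (End K E') β) y) := by
      simp only [LinearMap.sub_apply, Module.algebraMap_end_apply, map_sub, map_smul,
        LinearMap.smul_apply, hB, smul_sub, mul_smul]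
      abel
    rw [pow_succ, Module.End.mul_apply, e1, map_add, map_smul]
    have hc : Commute g (g - algebraMap K (End K E') β) :=
      (Commute.refl g).sub_right (Algebra.commutes β g).symm
    rw [ih _ (g y) m (n + 1) (by omega) (by
        rw [← Module.End.mul_apply, ← pow_succ]
        exact hx) (by
        rw [← Module.End.mul_apply, ← (hc.pow_right _).eq, Module.End.mul_apply, hy, map_zero]),
      ih x _ (m + 1) n (by omega) hx (by
        rw [← Module.End.mul_apply, ← pow_succ]
        exact hy), smul_zero, add_zero]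

/-- The product of generalized eigenvectors. -/
theorem gen_bilin {f : End K E} {g : End K E'} {h : End K M} (B : E →ₗ[K] E' →ₗ[K] M)
    (hB : ∀ x y, B (f x) (g y) = h (B x y)) {α β : K} {x : E} {y : E'}
    (hx : x ∈ f.maxGenEigenspace α) (hy : y ∈ g.maxGenEigenspace β) :
    B x y ∈ h.maxGenEigenspace (α * β) := by
  obtain ⟨m, hm⟩ := mem_gen.1 hx
  obtain ⟨n, hn⟩ := mem_gen.1 hy
  exact mem_gen.2 ⟨m + n, gen_bilin_aux B hB α β _ x y m n le_rfl hm hn⟩

/-- An eigenvector in a stable subspace. -/
theorem exists_eigenvector {f : End K E} {V : Submodule K E} (hV : ∀ v ∈ V, f v ∈ V) {γ : K}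
    {x : E} (hx : x ∈ V) (hg : x ∈ f.maxGenEigenspace γ) (h0 : x ≠ 0) :
    ∃ v ∈ V, v ≠ 0 ∧ f v = γ • v := by
  obtain ⟨n, hn⟩ := mem_gen.1 hg
  induction n generalizing x with
  | zero => exact absurd (by simpa using hn) h0
  | succ n ih =>
    by_cases h1 : (f - algebraMap K (End K E) γ) x = 0
    · refine ⟨x, hx, h0, ?_⟩
      rwa [LinearMap.sub_apply, Module.algebraMap_end_apply, sub_eq_zero] at h1
    · refine ih (x := (f - algebraMap K (End K E) γ) x) ?_ ?_ h1 ?_
      · rw [LinearMap.sub_apply, Module.algebraMap_end_apply]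
        exact V.sub_mem (hV x hx) (V.smul_mem _ hx)
      · refine mem_gen.2 ⟨n, ?_⟩
        rw [← Module.End.mul_apply, ← pow_succ]
        exact hn
      · rw [← Module.End.mul_apply, ← pow_succ]
        exact hn

/-- The eigenvalue of an eigenvector in a generalized eigenspace. -/
theorem eq_of_mem_gen {f : End K E} {γ δ : K} {x : E} (hg : x ∈ f.maxGenEigenspace γ)
    (h0 : x ≠ 0) (hx : f x = δ • x) : δ = γ := by
  obtain ⟨n, hn⟩ := mem_gen.1 hg
  have h1 : ∀ n : ℕ, ((f - algebraMap K (End K E) γ) ^ n) x = (δ - γ) ^ n • x := by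
    intro n
    induction n with
    | zero => simp
    | succ n ih =>
      rw [pow_succ, Module.End.mul_apply, LinearMap.sub_apply, Module.algebraMap_end_apply, hx,
        ← sub_smul, map_smul, ih, smul_smul, pow_succ']
  rw [h1] at hn
  rcases smul_eq_zero.1 hn with h2 | h2
  · have hn0 : n ≠ 0 := by
      rintro rfl
      rw [pow_zero] at h2
      exact one_ne_zero h2
    exact sub_eq_zero.1 ((pow_eq_zero_iff hn0).1 h2)
  · exact absurd h2 h0

/-- A family of subspaces of independent subspaces which generates everything. -/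
theorem le_of_independent {ι : Type} {S T : ι → Submodule K E} (hS : iSupIndep S)
    (hT : ∀ i, T i ≤ S i) (htop : ⨆ i, T i = ⊤) (i : ι) : S i ≤ T i := by
  intro v hv
  have h1 : v ∈ ⨆ i, T i := by rw [htop]; exact Submodule.mem_top
  have h2 : (⨆ j, T j) ≤ T i ⊔ ⨆ j, ⨆ _ : j ≠ i, T j := by
    refine iSup_le fun j => ?_
    by_cases hj : j = i
    · subst hj
      exact le_sup_left
    · exact le_sup_of_le_right (le_iSup₂_of_le j hj le_rfl)
  obtain ⟨t, ht, s, hs, hts⟩ := Submodule.mem_sup.1 (h2 h1)
  have h3 : s ∈ ⨆ j, ⨆ _ : j ≠ i, S j := by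
    have h4 : (⨆ j, ⨆ _ : j ≠ i, T j) ≤ ⨆ j, ⨆ _ : j ≠ i, S j :=
      iSup₂_mono fun j _ => hT j
    exact h4 hs
  have h5 : s ∈ S i := by
    have h6 : s = v - t := by rw [← hts, add_sub_cancel_left]
    rw [h6]
    exact (S i).sub_mem hv (hT i ht)
  have h7 : s = 0 := (Submodule.disjoint_def.1 (hS i)) s h5 h3
  rw [← hts, h7, add_zero]
  exact ht

end Pool.Agent.H621.GT
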