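import Pool.Agent.H621.GT.Coh
import Pool.Agent.H621.GT.Gen

/-!
# The generalized Tate conjecture for products
-/

open CategoryTheory AlgebraicGeometry Module

universe u

namespace Pool.Agent.H621.GT

open Pool.Agent.H914 Pool.Agent.H914.VarClass Pool.Agent.H914.VarClass.Obj
  Pool.Agent.H914.WeilCohomology

variable {k : Type u} [Field k] {𝒱 : VarClass k} {ops : CycleOps 𝒱}
  {W : WeilCohomology.{u, 0} ops} {X Z : 𝒱.Obj} {q : ℕ} {FX : W.H X →ₐ[W.K] W.H X}
  {FZ : W.H Z →ₐ[W.K] W.H Z} {F : W.H (X.prod Z) →ₐ[W.K] W.H (X.prod Z)}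

/-- The generalized eigenspace in one degree. -/
noncomputable def ge (W : WeilCohomology.{u, 0} ops) (X : 𝒱.Obj) (F : W.H X →ₐ[W.K] W.H X)
    (i : ℕ) (α : W.K) : Submodule W.K (W.H X) :=
  W.gr X i ⊓ Module.End.maxGenEigenspace F.toLinearMap α

theorem ge_stable (h : IsFrobenius q W X FX) {i : ℕ} {α : W.K} {v : W.H X}
    (hv : v ∈ ge W X FX i α) : FX v ∈ ge W X FX i α := by
  refine ⟨(h i).1 v hv.1, ?_⟩
  have h1 := Module.End.mapsTo_maxGenEigenspace_of_comm (f := FX.toLinearMap)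
    (g := FX.toLinearMap) (Commute.refl _) α
  exact h1 hv.2

/-- The generalized eigenspaces for eigenvalues divisible by `q ^ a`. -/
theorem ge_effective (h : IsFrobenius q W X FX) {i a : ℕ}
    {α : W.K} (hα : IsIntegral ℤ (α / (q : W.K) ^ a)) :
    IsEffectivePart q i a FX (ge W X FX i α) := by
  refine ⟨fun v hv => ge_stable h hv, fun β v hv hv0 hβ => ?_⟩
  have h1 : β = α := eq_of_mem_gen hv.2 hv0 hβ
  subst h1
  obtain ⟨h2, h3⟩ := (h i).2 β v hv.1 hv0 hβ
  refine ⟨hα, ?_⟩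
  rw [← div_div]
  exact h3.integral h2 q a hα

theorem ge_eigenvalue (h : IsFrobenius q W X FX) {i : ℕ} {α : W.K} {v : W.H X}
    (hv : v ∈ ge W X FX i α) (hv0 : v ≠ 0) : IsEigenvalue FX α ∧ IsIntegral ℤ α := by
  obtain ⟨w, hw, hw0, hw1⟩ := exists_eigenvector (f := FX.toLinearMap) (V := ge W X FX i α)
    (fun v hv => ge_stable h hv) hv hv.2 hv0
  exact ⟨⟨w, hw0, hw1⟩, ((h i).2 α w hw.1 hw0 hw1).1⟩

/-- The generalized eigenspaces generate everything. -/
theorem mem_iSup_ge [IsAlgClosed W.K] (h : IsFrobenius q W X FX) {i : ℕ} {a : W.H X}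
    (ha : a ∈ W.gr X i) : a ∈ ⨆ α, ge W X FX i α := by
  have h1 := Submodule.inf_iSup_genEigenspace (p := W.gr X i) (f := FX.toLinearMap)
    (fun x hx => (h i).1 x hx) ⊤
  have h2 : (⨆ α, ge W X FX i α) = W.gr X i := by
    refine Eq.trans h1.symm ?_
    have h3 := Module.End.iSup_maxGenEigenspace_eq_top FX.toLinearMap
    exact (congrArg (fun t => W.gr X i ⊓ t) h3).trans (inf_top_eq _)
  rw [h2]
  exact ha

variable (W X Z FX FZ) in
/-- The sums of products of generalized eigenvectors whose eigenvalues have the product `γ`. -/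
noncomputable def tg (γ : W.K) : Submodule W.K (W.H (X.prod Z)) :=
  ⨆ (i : ℕ) (j : ℕ) (α : W.K) (β : W.K) (_ : α * β = γ),
    Submodule.map₂ (ex W X Z) (ge W X FX i α) (ge W Z FZ j β)

theorem le_tg {i j : ℕ} {α β : W.K} : Submodule.map₂ (ex W X Z) (ge W X FX i α)
    (ge W Z FZ j β) ≤ tg W X Z FX FZ (α * β) :=
  le_iSup_of_le i (le_iSup_of_le j (le_iSup_of_le α (le_iSup_of_le β (le_iSup_of_le rfl le_rfl))))

theorem tg_le (h1 : ∀ a, F (W.map (fst X Z) a) = W.map (fst X Z) (FX a))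
    (h2 : ∀ b, F (W.map (snd X Z) b) = W.map (snd X Z) (FZ b)) (γ : W.K) :
    tg W X Z FX FZ γ ≤ Module.End.maxGenEigenspace F.toLinearMap γ := by
  refine iSup_le fun i => iSup_le fun j => iSup_le fun α => iSup_le fun β => iSup_le fun hγ => ?_
  subst hγ
  refine Submodule.map₂_le.2 fun x hx z hz => ?_
  refine gen_bilin (f := FX.toLinearMap) (g := FZ.toLinearMap) (ex W X Z) (fun x y => ?_)
    hx.2 hz.2
  simp only [ex_apply, AlgHom.toLinearMap_apply, map_mul, h1, h2]

theorem iSup_tg [IsAlgClosed W.K] (hX : IsFrobenius q W X FX) (hZ : IsFrobenius q W Z FZ) :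
    ⨆ γ, tg W X Z FX FZ γ = ⊤ := by
  rw [eq_top_iff]
  rintro c -
  refine W.kunneth_induction (p := fun c => c ∈ ⨆ γ, tg W X Z FX FZ γ)
    (fun a b ha hb => Submodule.add_mem _ ha hb) ?_ c
  intro i j a ha b hb
  have h1 : Submodule.map₂ (ex W X Z) (⨆ α, ge W X FX i α) (⨆ β, ge W Z FZ j β) ≤
      ⨆ γ, tg W X Z FX FZ γ := by
    rw [Submodule.map₂_iSup_left]
    refine iSup_le fun α => ?_
    rw [Submodule.map₂_iSup_right]
    refine iSup_le fun β => ?_
    exact le_iSup_of_le (α * β) le_tg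
  exact h1 (Submodule.apply_mem_map₂ _ (mem_iSup_ge hX ha) (mem_iSup_ge hZ hb))

/-- The general form of the theorem on products. -/
theorem main [IsAlgClosed W.K] (hq : 1 < q) (hX : IsFrobenius q W X FX)
    (hZ : IsFrobenius q W Z FZ) (h1 : ∀ a, F (W.map (fst X Z) a) = W.map (fst X Z) (FX a))
    (h2 : ∀ b, F (W.map (snd X Z) b) = W.map (snd X Z) (FZ b))
    (hs : ∀ α β, IsEigenvalue FX α → IsEigenvalue FZ β →
      HasIntegralSlope q α ∧ AreDisjoint α β ∨ HasIntegralSlope q β ∧ AreDisjoint β α)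
    {ν : ℕ} {T : Submodule W.K (W.H (X.prod Z))}
    (hT : ∀ a b, a + b = ν → ∀ (i j : ℕ) (V : Submodule W.K (W.H X))
      (V' : Submodule W.K (W.H Z)), V ≤ W.gr X i → IsEffectivePart q i a FX V → V' ≤ W.gr Z j →
      IsEffectivePart q j b FZ V' → ∀ x ∈ V, ∀ z ∈ V', ex W X Z x z ∈ T)
    {n : ℕ} {V : Submodule W.K (W.H (X.prod Z))} (hV : IsEffectivePart q n ν F V) : V ≤ T := by
  intro v hv
  obtain ⟨hVs, hVe⟩ := hV
  -- the generalized eigenspaces of the product
  have hgen : ∀ γ : W.K, IsIntegral ℤ (γ / (q : W.K) ^ ν) →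
      Module.End.maxGenEigenspace F.toLinearMap γ ≤ T := by
    intro γ hγ
    refine (le_of_independent (Module.End.independent_maxGenEigenspace F.toLinearMap)
      (tg_le h1 h2) (iSup_tg hX hZ) γ).trans ?_
    refine iSup_le fun i => iSup_le fun j => iSup_le fun α => iSup_le fun β =>
      iSup_le fun hαβ => ?_
    refine Submodule.map₂_le.2 fun x hx z hz => ?_
    by_cases hx0 : x = 0
    · rw [hx0, map_zero, LinearMap.zero_apply]
      exact Submodule.zero_mem _
    by_cases hz0 : z = 0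
    · rw [hz0, map_zero]
      exact Submodule.zero_mem _
    obtain ⟨h3, h4⟩ := ge_eigenvalue hX hx hx0
    obtain ⟨h5, h6⟩ := ge_eigenvalue hZ hz hz0
    obtain ⟨a, b, hab, ha, hb⟩ : ∃ a b, a + b = ν ∧ IsIntegral ℤ (α / (q : W.K) ^ a) ∧
        IsIntegral ℤ (β / (q : W.K) ^ b) := by
      rcases hs α β h3 h5 with ⟨h7, h8⟩ | ⟨h7, h8⟩
      · exact split hq h4 h6 h7 h8 (by rw [hαβ]; exact hγ)
      · obtain ⟨b, a, hab, hb, ha⟩ := split hq h6 h4 h7 h8 (ν := ν)
          (by rw [mul_comm β, hαβ]; exact hγ)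
        exact ⟨a, b, by omega, ha, hb⟩
    exact hT a b hab i j _ _ inf_le_left (ge_effective hX ha) inf_le_left (ge_effective hZ hb) x hx
      z hz
  have h3 := Submodule.inf_iSup_genEigenspace (p := V) (f := F.toLinearMap) hVs ⊤
  have h4 : v ∈ ⨆ γ, V ⊓ Module.End.genEigenspace F.toLinearMap γ ⊤ := by
    rw [← h3]
    refine ⟨hv, ?_⟩
    have h5 := Module.End.iSup_maxGenEigenspace_eq_top F.toLinearMap
    exact (h5.symm ▸ Submodule.mem_top :
      v ∈ ⨆ μ, Module.End.maxGenEigenspace F.toLinearMap μ)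
  refine (iSup_le fun γ => ?_ : (⨆ γ, V ⊓ Module.End.genEigenspace F.toLinearMap γ ⊤) ≤ T) h4
  intro w hw
  by_cases hw0 : w = 0
  · rw [hw0]
    exact Submodule.zero_mem _
  obtain ⟨w', hw', hw0', hw1⟩ := exists_eigenvector (f := F.toLinearMap) (V := V) hVs hw.1
    (γ := γ) hw.2 hw0
  exact hgen γ (hVe γ w' hw' hw0' hw1).1 hw.2

/-- The Galois coniveau contains the effective parts. -/
theorem le_galois {X : FVar q W} {i ν : ℕ} {V : Submodule W.K (W.H X.X)}
    (h1 : V ≤ W.gr X.X i) (h2 : IsEffectivePart q i ν X.F V) : V ≤ galoisConiveau X ν :=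
  fun _ hv => Submodule.subset_span ⟨i, V, h1, h2, hv⟩

/-- **The Galois coniveau of a product.** -/
theorem galois_prod [IsAlgClosed W.K] (hq : 1 < q) {X Z Y : FVar q W}
    (h : Y.X = X.X.prod Z.X) (hP : IsProduct X Z Y h) (hi : AreIndependent X Z) (ν : ℕ) :
    galoisConiveau Y ν ≤ productConiveau X Z Y h ν := by
  obtain ⟨YX, F, hF⟩ := Y
  obtain ⟨h1, h2⟩ := hP
  change YX = X.X.prod Z.X at h
  subst h
  simp only [eqToHom_refl, Category.id_comp] at h1 h2
  refine Submodule.span_le.2 ?_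
  rintro v ⟨n, V, -, hV, hv⟩
  refine main hq X.isFrobenius Z.isFrobenius h1 h2 hi ?_ hV hv
  intro a b hab i j V V' h3 h4 h5 h6 x hx z hz
  refine Submodule.subset_span ⟨a, b, hab, x, le_galois h3 h4 hx, z, le_galois h5 h6 hz, ?_⟩
  simp only [eqToHom_refl, Category.id_comp]
  rfl

/-- **The generalized Tate conjecture for all varieties generated by independent products.** -/
theorem generated [IsAlgClosed W.K] (hq : 1 < q) {S : Set (FVar q W)}
    (hS : ∀ X ∈ S, GeneralizedTate q W X.X X.F) {Y : FVar q W} (hY : Generated S Y) :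
    GeneralizedTate q W Y.X Y.F := by
  induction hY with
  | base X hX => exact hS X hX
  | prod X Z Y h _ _ hi hP gX gZ =>
    obtain ⟨YX, F, hF⟩ := Y
    obtain ⟨h1, h2⟩ := hP
    change YX = X.X.prod Z.X at h
    subst h
    simp only [eqToHom_refl, Category.id_comp] at h1 h2
    intro n ν V _ hV
    refine main hq X.isFrobenius Z.isFrobenius h1 h2 hi ?_ hV
    intro a b hab i j V V' h3 h4 h5 h6 x hx z hz
    rw [← hab]
    exact ex_coniveau (gX i a V h3 h4 hx) (gZ j b V' h5 h6 hz)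

end Pool.Agent.H621.GT
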