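import Pool.Agent.H914R2.Weil

/-!
# The generalized Tate conjecture over finite fields: definitions
-/

open CategoryTheory AlgebraicGeometry IntermediateField

universe u

namespace Pool.Agent.H621.GT

section arith

variable {K : Type} [Field K] [CharZero K]

/-- `β` is a conjugate of `α` over the field of rational numbers. -/
def IsConjugate (α β : K) : Prop := Polynomial.aeval β (minpoly ℚ α) = 0

/-- `α / q ^ ν` and `q ^ (i - ν) / α` are algebraic integers. -/
def IsEffective (q i ν : ℕ) (α : K) : Prop :=
  IsIntegral ℤ (α / (q : K) ^ ν) ∧ IsIntegral ℤ ((q : K) ^ i / (α * (q : K) ^ ν))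

/-- `α` is divisible by `q ^ a`, and `q ^ a` is in the ideal generated by the conjugates of `α` in the
ring of all algebraic integers. -/
def HasIntegralSlope (q : ℕ) (α : K) : Prop :=
  ∃ a : ℕ, IsIntegral ℤ (α / (q : K) ^ a) ∧ ∃ (n : ℕ) (c β : Fin n → K),
    (∀ r, IsIntegral ℤ (c r) ∧ IsConjugate α (β r)) ∧ (q : K) ^ a = ∑ r, c r * β r

/-- The minimal polynomial of `α` is irreducible over `E`. -/
def StaysIrreducible (E : Type) [Field E] [Algebra ℚ E] (α : K) : Prop :=
  Irreducible ((minpoly ℚ α).map (algebraMap ℚ E))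

/-- The fields `ℚ(α)` and `ℚ(β)` are linearly disjoint: the minimal polynomial of `α` is irreducible
over `ℚ(β)`. -/
def AreDisjoint (α β : K) : Prop := StaysIrreducible ℚ⟮β⟯ α

end arith

section alg

variable {K A : Type} [Field K] [CharZero K] [Ring A] [Algebra K A]

/-- `α` is an eigenvalue of `F`. -/
def IsEigenvalue (F : A →ₐ[K] A) (α : K) : Prop := ∃ v, v ≠ 0 ∧ F v = α • v

/-- `V` is stable under `F`, and the eigenvalues of `F` on `V`, twisted by `ν`, are effective of weight
`i - 2 ν`. -/
def IsEffectivePart (q i ν : ℕ) (F : A →ₐ[K] A) (V : Submodule K A) : Prop :=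
  (∀ v ∈ V, F v ∈ V) ∧ ∀ α : K, ∀ v ∈ V, v ≠ 0 → F v = α • v → IsEffective q i ν α

/-- Every subspace of `gr i` which is stable under `F` and effective after the twist by `ν` is
contained in `N ν`. -/
def EffectivePartsIn (q : ℕ) (gr : ℕ → Submodule K A) (F : A →ₐ[K] A)
    (N : ℕ → Submodule K A) : Prop :=
  ∀ i ν, ∀ V : Submodule K A, V ≤ gr i → IsEffectivePart q i ν F V → V ≤ N ν

/-- The sum of the subspaces of the spaces `gr i` which are stable under `F` and effective after the
twist by `ν`. -/
def effectiveSum (q ν : ℕ) (gr : ℕ → Submodule K A) (F : A →ₐ[K] A) : Submodule K A :=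
  Submodule.span K {v | ∃ i, ∃ V : Submodule K A, V ≤ gr i ∧ IsEffectivePart q i ν F V ∧ v ∈ V}

/-- `F` preserves the degrees, and the eigenvalues `α` of `F` in degree `i` are algebraic integers for
which `q ^ i / α` is a conjugate of `α`. -/
def IsFrobeniusOn (q : ℕ) (gr : ℕ → Submodule K A) (F : A →ₐ[K] A) : Prop :=
  ∀ i, (∀ a ∈ gr i, F a ∈ gr i) ∧ ∀ α : K, ∀ v ∈ gr i, v ≠ 0 → F v = α • v →
    IsIntegral ℤ α ∧ IsConjugate α ((q : K) ^ i / α)

variable {B C : Type} [Ring B] [Algebra K B] [Ring C] [Algebra K C]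

/-- The homomorphism `φ` is compatible with the endomorphisms. -/
def Intertwines (F : A →ₐ[K] A) (G : B →ₐ[K] B) (φ : A →ₐ[K] B) : Prop :=
  ∀ a, G (φ a) = φ (F a)

/-- The sums of the products `φ x * ψ z` with `x ∈ M a`, `z ∈ N b` and `a + b = ν`. -/
def productSpan (φ : A →ₐ[K] C) (ψ : B →ₐ[K] C) (M : ℕ → Submodule K A)
    (N : ℕ → Submodule K B) (ν : ℕ) : Submodule K C :=
  Submodule.span K {w | ∃ a b, a + b = ν ∧ ∃ x ∈ M a, ∃ z ∈ N b, w = φ x * ψ z}

/-- The subspace spanned by the elements with the property `p`. -/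
def spn (p : A → Prop) : Submodule K A := Submodule.span K {a | p a}

end alg

open Pool.Agent.H914 Pool.Agent.H914.VarClass Pool.Agent.H914.VarClass.Obj

variable {k : Type u} [Field k] {𝒱 : VarClass k} {ops : CycleOps 𝒱}

/-- The class is in the image of the Gysin map of a morphism from a variety of dimension
`dim X - ν`. -/
def IsGysinImage (W : WeilCohomology.{u, 0} ops) (X : 𝒱.Obj) (ν : ℕ) (c : W.H X) : Prop :=
  ∃ (Y : 𝒱.Obj) (f : Y ⟶ X) (a : W.H Y), Y.dim + ν = X.dim ∧ W.push f a = c

/-- The sum of the images of the Gysin maps from the varieties of dimension `dim X - ν`. -/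
def coniveau (W : WeilCohomology.{u, 0} ops) (X : 𝒱.Obj) (ν : ℕ) : Submodule W.K (W.H X) :=
  spn (IsGysinImage W X ν)

/-- The generalized Tate conjecture for `X` with the Frobenius endomorphism `F`: every subspace of
`H^i(X)` which is stable under `F` and effective after the twist by `ν` is of coniveau at least `ν`. -/
def GeneralizedTate (q : ℕ) (W : WeilCohomology.{u, 0} ops) (X : 𝒱.Obj)
    (F : W.H X →ₐ[W.K] W.H X) : Prop := EffectivePartsIn q (W.gr X) F (coniveau W X)

/-- `F` has the properties of the Frobenius endomorphism. -/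
def IsFrobenius (q : ℕ) (W : WeilCohomology.{u, 0} ops) (X : 𝒱.Obj)
    (F : W.H X →ₐ[W.K] W.H X) : Prop := IsFrobeniusOn q (W.gr X) F

/-- A variety over the field with `q` elements: a variety with an endomorphism of its cohomology
algebra with the properties of the Frobenius endomorphism. -/
structure FVar (q : ℕ) (W : WeilCohomology.{u, 0} ops) where
  /-- the variety -/
  X : 𝒱.Obj
  /-- the Frobenius endomorphism -/
  F : W.H X →ₐ[W.K] W.H X
  isFrobenius : IsFrobenius q W X F

variable {q : ℕ} {W : WeilCohomology.{u, 0} ops}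

/-- The sum of the subspaces of the spaces `H^i(X)` which are stable under Frobenius and effective of
weight `i - 2 ν` after the twist by `ν`. -/
def galoisConiveau (X : FVar q W) (ν : ℕ) : Submodule W.K (W.H X.X) :=
  effectiveSum q ν (W.gr X.X) X.F

/-- `Y` is the product of `X` and `Z`. -/
def IsProduct (X Z Y : FVar q W) (h : Y.X = X.X.prod Z.X) : Prop :=
  Intertwines X.F Y.F (W.map (eqToHom h ≫ fst X.X Z.X)) ∧
    Intertwines Z.F Y.F (W.map (eqToHom h ≫ snd X.X Z.X))

/-- The sums of the products of classes in the Galois coniveau `a` of `X` and `b` of `Z`, where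
`a + b = ν`. -/
noncomputable def productConiveau (X Z Y : FVar q W) (h : Y.X = X.X.prod Z.X) (ν : ℕ) :
    Submodule W.K (W.H Y.X) :=
  productSpan (W.map (eqToHom h ≫ fst X.X Z.X)) (W.map (eqToHom h ≫ snd X.X Z.X))
    (galoisConiveau X) (galoisConiveau Z) ν

/-- For all eigenvalues `α` of Frobenius on `H(X)` and `β` on `H(Z)` the fields `ℚ(α)` and `ℚ(β)` are
linearly disjoint and one of the numbers `α`, `β` has an integral slope. -/
def AreIndependent (X Z : FVar q W) : Prop :=
  ∀ α β, IsEigenvalue X.F α → IsEigenvalue Z.F β →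
    HasIntegralSlope q α ∧ AreDisjoint α β ∨ HasIntegralSlope q β ∧ AreDisjoint β α

/-- The varieties obtained from the varieties in `S` by products of independent varieties. -/
inductive Generated (S : Set (FVar q W)) : FVar q W → Prop
  | base (X : FVar q W) : X ∈ S → Generated S X
  | prod (X Z Y : FVar q W) (h : Y.X = X.X.prod Z.X) : Generated S X → Generated S Z →
      AreIndependent X Z → IsProduct X Z Y h → Generated S Y

end Pool.Agent.H621.GT
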